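import Pool.Agent.Helper55.NT.TAlg
import Pool.Agent.Helper15.NL.Bridge

/-!
`talg` in the form used by the assembly of Nill's conjecture in dimension three.
-/

namespace Helper55.NT

theorem tAlg : Helper15.NL.TAlg :=
  fun x y z m1 m2 m3 h1 h2 h3 h4 h5 h6 h7 h8 h9 w1 w2 w3 hY hM =>
    talg x y z m1 m2 m3 h1 h2 h3 h4 h5 h6 h7 h8 h9 w1 w2 w3 hY hM

end Helper55.NT
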