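import Mathlib

/-!
The algebra of lattice free triangles of type three (used for Nill's conjecture in dimension three,
`MP_5412de_co`).

`x, y, z` are the parameters of the triangle `T = {x s₂ + s₃ > 0, y s₃ + s₁ > 0, z s₁ + s₂ > 0}` in the
plane `s₁ + s₂ + s₃ = 1`, and `m₁, m₂, m₃` those of the separating functionals.
-/

namespace Helper55.NT

/-- The constraint on the points of the slice. -/
def Con (x y z m1 m2 m3 s1 s2 s3 : ℝ) : Prop :=
  0 < x * s2 + s3 ∧ x * s2 + s3 < 2 * m1 ∧ 0 < y * s3 + s1 ∧ y * s3 + s1 < 2 * m2 ∧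
    0 < z * s1 + s2 ∧ z * s1 + s2 < 2 * m3

/-- the widths of the triangle determine its parameters up to a small quantity `e` -/
private theorem pos_e {a b c e : ℝ} (ha : 0 < a) (hb : 0 < b) (hc : 0 < c)
    (hq : e ^ 2 - (1 - (a + b + c)) * e + (a * b + b * c + c * a) = 0)
    (h1 : 0 < e + c + b / 2) (h2 : 0 < e + a + c / 2) (h3 : 0 < e + b + a / 2) : 0 < e := by
  by_contra hcon
  have he : e ≤ 0 := not_lt.1 hcon
  have hab : 0 < a * b := mul_pos ha hb
  have hbc : 0 < b * c := mul_pos hb hc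
  have hca : 0 < c * a := mul_pos hc ha
  have key : e ^ 2 + (a + b + c) * e + (a * b + b * c + c * a) < 0 ∨ e = 0 := by
    rcases eq_or_lt_of_le he with h | h
    · right; exact h
    · left; nlinarith
  rcases key with key | h0
  · have main : ∀ a b c : ℝ, 0 < a → 0 < b → 0 < c →
        e ^ 2 + (a + b + c) * e + (a * b + b * c + c * a) < 0 → 0 < e + c + b / 2 →
        c ≤ a → b ≤ 2 * (a + c) → False := by
      intro a b c ha hb hc hk hf hca hb2
      have h5 : 0 ≤ (e + c + b / 2) * (a + b + c + e - (c + b / 2)) := by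
        apply mul_nonneg hf.le
        linarith
      have h6 : 0 ≤ b * (2 * a + 2 * c - b) := mul_nonneg hb.le (by linarith)
      nlinarith
    by_cases hc1 : c ≤ a
    · by_cases hb1 : b ≤ 2 * (a + c)
      · exact main a b c ha hb hc key h1 hc1 hb1
      · -- `a ≤ b`
        have h7 : a ≤ b := by linarith
        exact main b c a hb hc ha (by linarith) h2 h7 (by linarith)
    · have hc2 : a < c := not_le.1 hc1
      by_cases hb1 : b ≤ c
      · exact main c a b hc ha hb (by linarith) h3 hb1 (by linarith)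
      · have h7 : a ≤ b := by linarith
        exact main b c a hb hc ha (by linarith) h2 h7 (by linarith)
  · rw [h0] at hq
    nlinarith

/-- `x, z` from the identity `x / A + 1 / B = 1 - z (1 - x)` -/
private theorem half_lt {A B x z : ℝ} (hA : 2 < A) (hB : 2 < B) (hx0 : 0 < x) (hx1 : x ≤ 1)
    (r : x * B + A = A * B * (1 - z * (1 - x))) : x < 1 ∧ 1 / 2 < z := by
  have h1 : 0 < (1 - x) * (2 * z - 1) := by
    have h2 : 0 < A * B := by positivity
    have h3 : 0 < x * B * (A - 2) + A * (B - 2) := by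
      have : 0 < x * B * (A - 2) := by
        apply mul_pos (by positivity)
        linarith
      have : 0 < A * (B - 2) := by
        apply mul_pos (by linarith)
        linarith
      linarith
    have h4 : x * B * (A - 2) + A * (B - 2) = A * B * ((1 - x) * (2 * z - 1)) := by
      linear_combination (-2) * r
    rw [h4] at h3
    exact (pos_iff_pos_of_mul_pos h3).1 h2
  have h5 : 0 ≤ 1 - x := by linarith
  have h6 : 0 < 1 - x := by
    rcases eq_or_lt_of_le h5 with h | h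
    · rw [← h, zero_mul] at h1
      exact absurd h1 (lt_irrefl 0)
    · exact h
  have h7 : 0 < 2 * z - 1 := (pos_iff_pos_of_mul_pos h1).1 h6
  constructor
  · linarith
  · linarith

/-- everything about the triangle in terms of the widths `2 + a, 2 + b, 2 + c` and `e` -/
private theorem tri {x y z A B C : ℝ} (hx0 : 0 < x) (hx1 : x ≤ 1) (hy0 : 0 < y) (hy1 : y ≤ 1)
    (hz0 : 0 < z) (hz1 : z ≤ 1) (hA : 2 < A) (hB : 2 < B) (hC : 2 < C)
    (r1 : x * B + A = A * B * (1 - z * (1 - x))) (r2 : y * C + B = B * C * (1 - x * (1 - y)))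
    (r3 : z * A + C = C * A * (1 - y * (1 - z)))
    (l1 : A = (1 - x) * B + y * C) (l2 : B = (1 - y) * C + z * A) :
    ∃ e : ℝ, 0 < e ∧ (A - 2) + (B - 2) + (C - 2) + e < 1 ∧
      y * C = 1 + (A - 2) + (C - 2) + e ∧ z * A = 1 + (A - 2) + (B - 2) + e ∧
      x * B = 1 + (B - 2) + (C - 2) + e ∧
      e ^ 2 - (1 - ((A - 2) + (B - 2) + (C - 2))) * e +
        ((A - 2) * (B - 2) + (B - 2) * (C - 2) + (C - 2) * (A - 2)) = 0 ∧ x < 1 ∧ y < 1 ∧ z < 1 := by
  obtain ⟨ux, vz⟩ := half_lt hA hB hx0 hx1 r1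
  obtain ⟨uy, vx⟩ := half_lt hB hC hy0 hy1 r2
  obtain ⟨uz, vy⟩ := half_lt hC hA hz0 hz1 r3
  set e : ℝ := 3 - A - (1 - y) * C with he
  have hyC : y * C = 1 + (A - 2) + (C - 2) + e := by rw [he]; ring
  have hzA : z * A = 1 + (A - 2) + (B - 2) + e := by
    rw [he]; linear_combination (-1) * l2
  have hxB : x * B = 1 + (B - 2) + (C - 2) + e := by
    rw [he]; linear_combination l1
  have hq : e ^ 2 - (1 - ((A - 2) + (B - 2) + (C - 2))) * e +
        ((A - 2) * (B - 2) + (B - 2) * (C - 2) + (C - 2) * (A - 2)) = 0 := by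
    -- `(1 - x) B (1 - y) C = 1 - (y C - 1) (B - 1)`
    have h1 : (B - x * B) * (C - y * C) = 1 - (y * C - 1) * (B - 1) := by
      linear_combination (-1) * r2
    rw [hyC, hxB] at h1
    linear_combination h1
  have ha : 0 < A - 2 := by linarith
  have hb : 0 < B - 2 := by linarith
  have hc : 0 < C - 2 := by linarith
  have h1 : 0 < e + (C - 2) + (B - 2) / 2 := by nlinarith
  have h2 : 0 < e + (A - 2) + (C - 2) / 2 := by nlinarith
  have h3 : 0 < e + (B - 2) + (A - 2) / 2 := by nlinarith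
  have hpos := pos_e ha hb hc hq h1 h2 h3
  refine ⟨e, hpos, ?_, hyC, hzA, hxB, hq, ux, uy, uz⟩
  have hab : 0 < (A - 2) * (B - 2) := mul_pos ha hb
  have hbc : 0 < (B - 2) * (C - 2) := mul_pos hb hc
  have hca : 0 < (C - 2) * (A - 2) := mul_pos hc ha
  have h5 : 0 < e * (1 - ((A - 2) + (B - 2) + (C - 2) + e)) := by nlinarith
  have h6 := (pos_iff_pos_of_mul_pos h5).1 hpos
  linarith

/-- the final contradiction, in terms of the widths -/
private theorem final {a b c e a1 a2 a3 T P V m1 m2 m3 : ℝ} (ha : 0 < a) (hb : 0 < b) (hc : 0 < c)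
    (he : 0 < e) (h1 : a + b + c + e < 1)
    (hq : e ^ 2 - (1 - (a + b + c)) * e + (a * b + b * c + c * a) = 0)
    (k1 : a1 * (1 + a + c) ≤ a) (k2 : a2 * (1 + a + b) ≤ b) (k3 : a3 * (1 + b + c) ≤ c)
    (hP : 0 < P) (hm1 : 0 < m1) (hm2 : 0 < m2) (hm3 : 0 < m3) (hT : m1 + m2 + m3 = T)
    (hTP : T < 2 * P) (hT5 : P * (3 - (a1 + a2 + a3)) ≤ 2 * T) (hV : P ^ 2 ≤ 4 * V)
    (hM : 4 * (T - P) * V < 3 * (m1 * m2 * m3)) : False := by
  -- the sum of the `aᵢ`
  have s1 : a1 ≤ a - a * (a + c) / 2 := by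
    by_contra hcon
    have h2 : a - a * (a + c) / 2 < a1 := not_le.1 hcon
    have h3 : (a - a * (a + c) / 2) * (1 + a + c) < a1 * (1 + a + c) :=
      mul_lt_mul_of_pos_right h2 (by linarith)
    have h4 : 0 ≤ a * (a + c) * (1 - (a + c)) := by
      apply mul_nonneg (by positivity)
      linarith
    nlinarith
  have s2 : a2 ≤ b - b * (a + b) / 2 := by
    by_contra hcon
    have h2 : b - b * (a + b) / 2 < a2 := not_le.1 hcon
    have h3 : (b - b * (a + b) / 2) * (1 + a + b) < a2 * (1 + a + b) :=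
      mul_lt_mul_of_pos_right h2 (by linarith)
    have h4 : 0 ≤ b * (a + b) * (1 - (a + b)) := by
      apply mul_nonneg (by positivity)
      linarith
    nlinarith
  have s3 : a3 ≤ c - c * (b + c) / 2 := by
    by_contra hcon
    have h2 : c - c * (b + c) / 2 < a3 := not_le.1 hcon
    have h3 : (c - c * (b + c) / 2) * (1 + b + c) < a3 * (1 + b + c) :=
      mul_lt_mul_of_pos_right h2 (by linarith)
    have h4 : 0 ≤ c * (b + c) * (1 - (b + c)) := by
      apply mul_nonneg (by positivity)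
      linarith
    nlinarith
  have hsum : a1 + a2 + a3 ≤ 1 / 2 := by
    have h2 : 0 ≤ (2 * e - (1 - (a + b + c))) ^ 2 := sq_nonneg _
    have h3 : 0 ≤ (1 - (a + b + c)) ^ 2 := sq_nonneg _
    nlinarith
  have hT6 : 5 * P ≤ 4 * T := by nlinarith
  -- AM-GM
  have amgm : 27 * (m1 * m2 * m3) ≤ T ^ 3 := by
    rw [← hT]
    nlinarith [mul_nonneg hm1.le (sq_nonneg (m2 - m3)), mul_nonneg hm2.le (sq_nonneg (m1 - m3)),
      mul_nonneg hm3.le (sq_nonneg (m1 - m2)), mul_nonneg hm1.le (sq_nonneg (m1 - m2)),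
      mul_nonneg hm1.le (sq_nonneg (m1 - m3)), mul_nonneg hm2.le (sq_nonneg (m1 - m2)),
      mul_nonneg hm2.le (sq_nonneg (m2 - m3)), mul_nonneg hm3.le (sq_nonneg (m1 - m3)),
      mul_nonneg hm3.le (sq_nonneg (m2 - m3))]
  have hTpos : 0 < T - P := by linarith
  have h5 : 9 * (T - P) * P ^ 2 < T ^ 3 := by
    have h6 : (T - P) * P ^ 2 ≤ (T - P) * (4 * V) := mul_le_mul_of_nonneg_left hV hTpos.le
    nlinarith
  -- `9 (S - 1) < S ^ 3` fails for `5 / 4 ≤ S ≤ 2`
  have h7 : 0 ≤ (4 * T - 5 * P) * (2 * P - T) := mul_nonneg (by linarith) (by linarith)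
  nlinarith [mul_nonneg (by linarith : (0:ℝ) ≤ T) h7, mul_nonneg hP.le h7, mul_pos hP hP,
    mul_pos (mul_pos hP hP) hP]

/-- the widths of the truncated triangle, in the direction `s₁` -/
private theorem width_aux {x y z m1 m2 m3 s1 s2 s3 t1 t2 t3 : ℝ} (hx0 : 0 < x) (hx1 : x ≤ 1)
    (hy0 : 0 < y) (hy1 : y ≤ 1) (hz0 : 0 < z) (hz1 : z ≤ 1)
    (hs : s1 + s2 + s3 = 1) (ht : t1 + t2 + t3 = 1)
    (cs : Con x y z m1 m2 m3 s1 s2 s3) (ct : Con x y z m1 m2 m3 t1 t2 t3) (h : 2 ≤ s1 - t1) :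
    2 * (1 - x + x * y) < (1 - x) * min (2 * m2) ((1 + x * y * z) / (1 - z + z * x)) +
      y * min (2 * m1) ((1 + x * y * z) / (1 - y + y * z)) := by
  obtain ⟨c1, c2, c3, c4, c5, c6⟩ := cs
  obtain ⟨d1, d2, d3, d4, d5, d6⟩ := ct
  have hX : 0 < 1 - z + z * x := by nlinarith
  have hY : 0 < 1 - x + x * y := by nlinarith
  have hZ : 0 < 1 - y + y * z := by nlinarith
  have e1 : y * s3 + s1 ≤ (1 + x * y * z) / (1 - z + z * x) := by
    rw [le_div_iff₀ hX]
    have h1 : (1 + x * y * z) * (s1 + s2 + s3) = (1 - y + y * z) * (x * s2 + s3) +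
      (1 - z + z * x) * (y * s3 + s1) + (1 - x + x * y) * (z * s1 + s2) := by ring
    rw [hs, mul_one] at h1
    have h2 := mul_pos hZ c1
    have h3 := mul_pos hY c5
    linarith
  have e2 : x * t2 + t3 ≤ (1 + x * y * z) / (1 - y + y * z) := by
    rw [le_div_iff₀ hZ]
    have h1 : (1 + x * y * z) * (t1 + t2 + t3) = (1 - y + y * z) * (x * t2 + t3) +
      (1 - z + z * x) * (y * t3 + t1) + (1 - x + x * y) * (z * t1 + t2) := by ring
    rw [ht, mul_one] at h1
    have h2 := mul_pos hX d3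
    have h3 := mul_pos hY d5
    linarith
  have e3 : y * s3 + s1 ≤ min (2 * m2) ((1 + x * y * z) / (1 - z + z * x)) := le_min c4.le e1
  have e4 : x * t2 + t3 ≤ min (2 * m1) ((1 + x * y * z) / (1 - y + y * z)) := le_min d2.le e2
  have h1 : (1 - x + x * y) * (s1 - t1) = (1 - x) * ((y * s3 + s1) - (y * t3 + t1)) -
      y * ((x * s2 + s3) - (x * t2 + t3)) := by
    linear_combination (x * y) * hs - (x * y) * ht
  have h2 : (1 - x + x * y) * 2 ≤ (1 - x + x * y) * (s1 - t1) := mul_le_mul_of_nonneg_left h hY.le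
  have h3 := mul_le_mul_of_nonneg_left e3 (by linarith : (0 : ℝ) ≤ 1 - x)
  have h4 := mul_le_mul_of_nonneg_left e4 hy0.le
  have h5 := mul_pos hy0 c1
  have h6 := mul_nonneg (by linarith : (0 : ℝ) ≤ 1 - x) d3.le
  linarith

/-- from a width inequality of the truncated triangle -/
private theorem width_aux2 {x y X Y Z P k1 k2 : ℝ} (hX : 0 < X) (hY : 0 < Y) (hZ : 0 < Z)
    (hid : (1 - x) * Z + y * X = Y) (h : 2 * Y < (1 - x) * k2 + y * k1) (hP : 0 < P) :
    2 < P / (X * Z) - (1 - k2 * X / P) * ((1 - x) * (P / (X * Y))) -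
      (1 - k1 * Z / P) * (y * (P / (Y * Z))) := by
  have h1 : P / (X * Z) - (1 - k2 * X / P) * ((1 - x) * (P / (X * Y))) -
      (1 - k1 * Z / P) * (y * (P / (Y * Z))) = ((1 - x) * k2 + y * k1) / Y +
      (Y - ((1 - x) * Z + y * X)) * P / (X * Y * Z) := by
    field_simp
    ring
  rw [h1, hid, sub_self, zero_mul, zero_div, add_zero, lt_div_iff₀ hY]
  exact h

theorem talg (x y z m1 m2 m3 : ℝ) (hx0 : 0 < x) (hx1 : x ≤ 1) (hy0 : 0 < y) (hy1 : y ≤ 1)
    (hz0 : 0 < z) (hz1 : z ≤ 1) (hm1 : 0 < m1) (hm2 : 0 < m2) (hm3 : 0 < m3)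
    (w1 : ∃ s1 s2 s3 t1 t2 t3 : ℝ, s1 + s2 + s3 = 1 ∧ t1 + t2 + t3 = 1 ∧
      Con x y z m1 m2 m3 s1 s2 s3 ∧ Con x y z m1 m2 m3 t1 t2 t3 ∧ 2 ≤ s1 - t1)
    (w2 : ∃ s1 s2 s3 t1 t2 t3 : ℝ, s1 + s2 + s3 = 1 ∧ t1 + t2 + t3 = 1 ∧
      Con x y z m1 m2 m3 s1 s2 s3 ∧ Con x y z m1 m2 m3 t1 t2 t3 ∧ 2 ≤ s2 - t2)
    (w3 : ∃ s1 s2 s3 t1 t2 t3 : ℝ, s1 + s2 + s3 = 1 ∧ t1 + t2 + t3 = 1 ∧
      Con x y z m1 m2 m3 s1 s2 s3 ∧ Con x y z m1 m2 m3 t1 t2 t3 ∧ 2 ≤ s3 - t3)
    (hY : ∃ p1 p2 p3 : ℝ, p1 + p2 + p3 = 2 ∧ m1 < x * p2 + p3 ∧ m2 < y * p3 + p1 ∧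
      m3 < z * p1 + p2)
    (hM : 4 / 3 * |(!![1, 1 - x / m1, 1 - 1 / m1; 1 - 1 / m2, 1, 1 - y / m2;
      1 - z / m3, 1 - 1 / m3, 1] : Matrix (Fin 3) (Fin 3) ℝ).det| < 1) : False := by
  have hX : 0 < 1 - z + z * x := by nlinarith
  have hYY : 0 < 1 - x + x * y := by nlinarith
  have hZ : 0 < 1 - y + y * z := by nlinarith
  have hP : 0 < 1 + x * y * z := by positivity
  -- the three widths
  have W1 : 2 * (1 - x + x * y) < (1 - x) * min (2 * m2) ((1 + x * y * z) / (1 - z + z * x)) +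
      y * min (2 * m1) ((1 + x * y * z) / (1 - y + y * z)) := by
    obtain ⟨s1, s2, s3, t1, t2, t3, hs, ht, cs, ct, h⟩ := w1
    exact width_aux hx0 hx1 hy0 hy1 hz0 hz1 hs ht cs ct h
  have W2 : 2 * (1 - y + y * z) < (1 - y) * min (2 * m3) ((1 + x * y * z) / (1 - x + x * y)) +
      z * min (2 * m2) ((1 + x * y * z) / (1 - z + z * x)) := by
    obtain ⟨s1, s2, s3, t1, t2, t3, hs, ht, ⟨c1, c2, c3, c4, c5, c6⟩, ⟨d1, d2, d3, d4, d5, d6⟩, h⟩ := w2
    have := width_aux (x := y) (y := z) (z := x) (m1 := m2) (m2 := m3) (m3 := m1)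
      (s1 := s2) (s2 := s3) (s3 := s1) (t1 := t2) (t2 := t3) (t3 := t1) hy0 hy1 hz0 hz1 hx0 hx1
      (by linarith) (by linarith) ⟨c3, c4, c5, c6, c1, c2⟩ ⟨d3, d4, d5, d6, d1, d2⟩ h
    rw [show y * z * x = x * y * z by ring] at this
    exact this
  have W3 : 2 * (1 - z + z * x) < (1 - z) * min (2 * m1) ((1 + x * y * z) / (1 - y + y * z)) +
      x * min (2 * m3) ((1 + x * y * z) / (1 - x + x * y)) := by
    obtain ⟨s1, s2, s3, t1, t2, t3, hs, ht, ⟨c1, c2, c3, c4, c5, c6⟩, ⟨d1, d2, d3, d4, d5, d6⟩, h⟩ := w3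
    have := width_aux (x := z) (y := x) (z := y) (m1 := m3) (m2 := m1) (m3 := m2)
      (s1 := s3) (s2 := s1) (s3 := s2) (t1 := t3) (t2 := t1) (t3 := t2) hz0 hz1 hx0 hx1 hy0 hy1
      (by linarith) (by linarith) ⟨c5, c6, c1, c2, c3, c4⟩ ⟨d5, d6, d1, d2, d3, d4⟩ h
    rw [show z * x * y = x * y * z by ring] at this
    exact this
  clear w1 w2 w3
  -- the determinant
  have hD : 4 * ((1 - y + y * z) * m1 + (1 - z + z * x) * m2 + (1 - x + x * y) * m3 -
      (1 + x * y * z)) < 3 * (m1 * m2 * m3) := by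
    have h1 : (!![1, 1 - x / m1, 1 - 1 / m1; 1 - 1 / m2, 1, 1 - y / m2;
      1 - z / m3, 1 - 1 / m3, 1] : Matrix (Fin 3) (Fin 3) ℝ).det =
        ((1 - y + y * z) * m1 + (1 - z + z * x) * m2 + (1 - x + x * y) * m3 -
          (1 + x * y * z)) / (m1 * m2 * m3) := by
      rw [Matrix.det_fin_three]
      simp only [Matrix.of_apply, Matrix.cons_val]
      field_simp
      ring
    have h2 := le_abs_self ((!![1, 1 - x / m1, 1 - 1 / m1; 1 - 1 / m2, 1, 1 - y / m2;
      1 - z / m3, 1 - 1 / m3, 1] : Matrix (Fin 3) (Fin 3) ℝ).det)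
    have h3 : (!![1, 1 - x / m1, 1 - 1 / m1; 1 - 1 / m2, 1, 1 - y / m2;
      1 - z / m3, 1 - 1 / m3, 1] : Matrix (Fin 3) (Fin 3) ℝ).det < 3 / 4 := by linarith
    rw [h1, div_lt_iff₀ (by positivity)] at h3
    linarith
  clear hM
  -- the top
  have hT2 : (1 - y + y * z) * m1 + (1 - z + z * x) * m2 + (1 - x + x * y) * m3 <
      2 * (1 + x * y * z) := by
    obtain ⟨p1, p2, p3, hp, q1, q2, q3⟩ := hY
    have h1 := mul_lt_mul_of_pos_left q1 hZ
    have h2 := mul_lt_mul_of_pos_left q2 hX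
    have h3 := mul_lt_mul_of_pos_left q3 hYY
    have h4 : (1 + x * y * z) * (p1 + p2 + p3) = (1 - y + y * z) * (x * p2 + p3) +
      (1 - z + z * x) * (y * p3 + p1) + (1 - x + x * y) * (z * p1 + p2) := by ring
    rw [hp] at h4
    linarith
  clear hY
  -- names
  have i1 : (1 - x) * (1 - y + y * z) + y * (1 - z + z * x) = 1 - x + x * y := by ring
  have i2 : (1 - y) * (1 - z + z * x) + z * (1 - x + x * y) = 1 - y + y * z := by ring
  have i3 : (1 - z) * (1 - x + x * y) + x * (1 - y + y * z) = 1 - z + z * x := by ring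
  have j1 : (1 - z + z * x) + z * (1 - x + x * y) = 1 + x * y * z := by ring
  have j2 : (1 - x + x * y) + x * (1 - y + y * z) = 1 + x * y * z := by ring
  have j3 : (1 - y + y * z) + y * (1 - z + z * x) = 1 + x * y * z := by ring
  have g1 : 1 - z + z * x = 1 - z * (1 - x) := by ring
  have g2 : 1 - x + x * y = 1 - x * (1 - y) := by ring
  have g3 : 1 - y + y * z = 1 - y * (1 - z) := by ring
  generalize hXd : 1 - z + z * x = X at *
  generalize hYd : 1 - x + x * y = Y at *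
  generalize hZd : 1 - y + y * z = Z at *
  generalize hPd : 1 + x * y * z = P at *
  generalize hk1 : min (2 * m1) (P / Z) = k1 at *
  generalize hk2 : min (2 * m2) (P / X) = k2 at *
  generalize hk3 : min (2 * m3) (P / Y) = k3 at *
  have k1m : k1 ≤ 2 * m1 := by rw [← hk1]; exact min_le_left _ _
  have k2m : k2 ≤ 2 * m2 := by rw [← hk2]; exact min_le_left _ _
  have k3m : k3 ≤ 2 * m3 := by rw [← hk3]; exact min_le_left _ _
  have k1P : k1 * Z ≤ P := by
    rw [← le_div_iff₀ hZ, ← hk1]; exact min_le_right _ _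
  have k2P : k2 * X ≤ P := by
    rw [← le_div_iff₀ hX, ← hk2]; exact min_le_right _ _
  have k3P : k3 * Y ≤ P := by
    rw [← le_div_iff₀ hYY, ← hk3]; exact min_le_right _ _
  have a1n : 0 ≤ 1 - k1 * Z / P := by
    have : k1 * Z / P ≤ 1 := (div_le_one hP).2 k1P
    linarith
  have a2n : 0 ≤ 1 - k2 * X / P := by
    have : k2 * X / P ≤ 1 := (div_le_one hP).2 k2P
    linarith
  have a3n : 0 ≤ 1 - k3 * Y / P := by
    have : k3 * Y / P ≤ 1 := (div_le_one hP).2 k3P
    linarith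
  have V1 := width_aux2 hX hYY hZ i1 W1 hP
  have V2 := width_aux2 hYY hZ hX i2 W2 hP
  have V3 := width_aux2 hZ hX hYY i3 W3 hP
  have hApos : 0 < P / (X * Z) := by positivity
  have hBpos : 0 < P / (X * Y) := by positivity
  have hCpos : 0 < P / (Y * Z) := by positivity
  have r1 : x * (P / (X * Y)) + P / (X * Z) = P / (X * Z) * (P / (X * Y)) * (1 - z * (1 - x)) := by
    rw [← g1]
    field_simp
    linear_combination j2
  have r2 : y * (P / (Y * Z)) + P / (X * Y) = P / (X * Y) * (P / (Y * Z)) * (1 - x * (1 - y)) := by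
    rw [← g2]
    field_simp
    linear_combination j3
  have r3 : z * (P / (X * Z)) + P / (Y * Z) = P / (Y * Z) * (P / (X * Z)) * (1 - y * (1 - z)) := by
    rw [← g3]
    field_simp
    linear_combination j1
  have l1 : P / (X * Z) = (1 - x) * (P / (X * Y)) + y * (P / (Y * Z)) := by
    field_simp
    linear_combination (-1) * i1
  have l2 : P / (X * Y) = (1 - y) * (P / (Y * Z)) + z * (P / (X * Z)) := by
    field_simp
    linear_combination (-1) * i2
  have hVar : P ^ 2 = (y * (P / (Y * Z)) + P / (X * Y)) * (X * Y * Z) := by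
    field_simp
    linear_combination (-1) * j3
  rw [mul_comm Y X, mul_comm Z X] at V2
  rw [mul_comm Z Y, mul_comm Z X] at V3
  have hM2 : 4 * (Z * m1 + X * m2 + Y * m3 - P) * (X * Y * Z) <
      3 * (Z * m1 * (X * m2) * (Y * m3)) := by
    have h1 := mul_lt_mul_of_pos_right hD (by positivity : 0 < X * Y * Z)
    linarith
  have hT5 : P * (3 - ((1 - k1 * Z / P) + (1 - k2 * X / P) + (1 - k3 * Y / P))) ≤
      2 * (Z * m1 + X * m2 + Y * m3) := by
    have h1 : P * (3 - ((1 - k1 * Z / P) + (1 - k2 * X / P) + (1 - k3 * Y / P))) =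
        k1 * Z + k2 * X + k3 * Y := by
      field_simp
      ring
    rw [h1]
    have h2 := mul_le_mul_of_nonneg_right k1m hZ.le
    have h3 := mul_le_mul_of_nonneg_right k2m hX.le
    have h4 := mul_le_mul_of_nonneg_right k3m hYY.le
    linarith
  generalize P / (X * Z) = A at *
  generalize P / (X * Y) = B at *
  generalize P / (Y * Z) = C at *
  generalize 1 - k1 * Z / P = a1 at *
  generalize 1 - k2 * X / P = a2 at *
  generalize 1 - k3 * Y / P = a3 at *
  have n1 : 0 ≤ a2 * ((1 - x) * B) := mul_nonneg a2n (mul_nonneg (by linarith) hBpos.le)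
  have n2 : 0 ≤ a1 * (y * C) := mul_nonneg a1n (mul_nonneg hy0.le hCpos.le)
  have n3 : 0 ≤ a3 * ((1 - y) * C) := mul_nonneg a3n (mul_nonneg (by linarith) hCpos.le)
  have n4 : 0 ≤ a2 * (z * A) := mul_nonneg a2n (mul_nonneg hz0.le hApos.le)
  have n5 : 0 ≤ a1 * ((1 - z) * A) := mul_nonneg a1n (mul_nonneg (by linarith) hApos.le)
  have n6 : 0 ≤ a3 * (x * B) := mul_nonneg a3n (mul_nonneg hx0.le hBpos.le)
  obtain ⟨e, he, hs1, hyC, hzA, hxB, hq, ux, uy, uz⟩ := tri hx0 hx1 hy0 hy1 hz0 hz1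
    (by linarith : 2 < A) (by linarith : 2 < B) (by linarith : 2 < C) r1 r2 r3 l1 l2
  have ha : 0 < A - 2 := by linarith
  have hb : 0 < B - 2 := by linarith
  have hc : 0 < C - 2 := by linarith
  refine final (a := A - 2) (b := B - 2) (c := C - 2) (e := e) (a1 := a1) (a2 := a2) (a3 := a3)
    (T := Z * m1 + X * m2 + Y * m3) (P := P) (V := X * Y * Z) (m1 := Z * m1) (m2 := X * m2)
    (m3 := Y * m3) ha hb hc he hs1 hq ?_ ?_ ?_ hP (by positivity) (by positivity) (by positivity)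
    rfl (by linarith) hT5 ?_ hM2
  · have h1 : a1 * (1 + (A - 2) + (C - 2)) ≤ a1 * (y * C) := by
      apply mul_le_mul_of_nonneg_left _ a1n
      linarith
    linarith
  · have h1 : a2 * (1 + (A - 2) + (B - 2)) ≤ a2 * (z * A) := by
      apply mul_le_mul_of_nonneg_left _ a2n
      linarith
    linarith
  · have h1 : a3 * (1 + (B - 2) + (C - 2)) ≤ a3 * (x * B) := by
      apply mul_le_mul_of_nonneg_left _ a3n
      linarith
    linarith
  · rw [hVar, hyC]
    apply mul_le_mul_of_nonneg_right _ (by positivity)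
    linarith

end Helper55.NT
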